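import Mathlib
import Pool.Agent.Helper93.TP.Defs2

/-!
TP-6: basic properties of fullness, and admissible directions.
-/

namespace Pool.Agent.Helper93.TP

open MvPolynomial Module

namespace FullBasic

theorem mem_W {σ : Type*} [Fintype σ] {ι : Type*} {d : ℕ} (B : ι → σ → ℂ) (i : ι)
    {q : MvPolynomial σ ℂ} (hq : q ∈ homogeneousSubmodule σ ℂ 2) :
    lf (B i) ^ (d - 2) * q ∈ W d B := by
  refine Submodule.mem_iSup_of_mem i ?_
  exact Submodule.mem_map_of_mem hq

theorem rename_lf {σ τ : Type*} [Fintype σ] [Fintype τ] (e : σ ≃ τ) (b : σ → ℂ) :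
    rename e (lf b) = lf (fun j => b (e.symm j)) := by
  unfold lf
  rw [map_sum]
  rw [← e.sum_comp (fun j => b (e.symm j) • (X j : MvPolynomial τ ℂ))]
  refine Finset.sum_congr rfl fun i _ => ?_
  rw [map_smul, rename_X, Equiv.symm_apply_apply]

theorem full_of_fintype {σ : Type*} [Fintype σ] {ι : Type*} [Fintype ι] (B : ι → σ → ℂ)
    (h : homogeneousSubmodule σ ℂ 4 ≤ W 4 B) : Full σ (Fintype.card ι) := by
  refine ⟨fun k => B ((Fintype.equivFin ι).symm k), h.trans ?_⟩
  refine iSup_le fun i => ?_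
  refine le_iSup_of_le (Fintype.equivFin ι i) ?_
  simp only [Equiv.symm_apply_apply, le_refl]

theorem homog_four_le {σ : Type*} {N : Submodule ℂ (MvPolynomial σ ℂ)}
    (h : ∀ (i j : σ) (q : MvPolynomial σ ℂ), q ∈ homogeneousSubmodule σ ℂ 2 →
      X i * X j * q ∈ N) : homogeneousSubmodule σ ℂ 4 ≤ N := by
  intro f hf
  rw [f.as_sum]
  refine Submodule.sum_mem _ fun s hs => ?_
  have hdeg : s.degree = 4 := by
    rw [mem_homogeneousSubmodule] at hf
    have := hf (mem_support_iff.1 hs)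
    rwa [Finsupp.degree_eq_weight_one]
  have step : ∀ (s : σ →₀ ℕ) (k : ℕ), s.degree = k + 1 → ∃ (i : σ) (s' : σ →₀ ℕ),
      s = Finsupp.single i 1 + s' ∧ s'.degree = k := by
    intro s k hk
    have hne : s ≠ 0 := by
      rintro rfl
      simp at hk
    obtain ⟨i, hi⟩ := Finsupp.support_nonempty_iff.2 hne
    have hi' : Finsupp.single i 1 ≤ s := by
      rw [Finsupp.single_le_iff]
      exact Nat.one_le_iff_ne_zero.2 (Finsupp.mem_support_iff.1 hi)
    refine ⟨i, s - Finsupp.single i 1, (add_tsub_cancel_of_le hi').symm, ?_⟩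
    have h1 : s = Finsupp.single i 1 + (s - Finsupp.single i 1) :=
      (add_tsub_cancel_of_le hi').symm
    have h2 := congrArg Finsupp.degree h1
    rw [map_add, Finsupp.degree_single] at h2
    omega
  obtain ⟨i, s', rfl, hs'⟩ := step s 3 hdeg
  obtain ⟨j, s'', rfl, hs''⟩ := step s' 2 hs'
  have e : monomial (Finsupp.single i 1 + (Finsupp.single j 1 + s'')) (coeff
      (Finsupp.single i 1 + (Finsupp.single j 1 + s'')) f) =
      X i * X j * monomial s'' (coeff (Finsupp.single i 1 + (Finsupp.single j 1 + s'')) f) := by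
    rw [X, X, mul_assoc, monomial_mul, monomial_mul, one_mul, one_mul]
  rw [e]
  refine h i j _ ?_
  rw [mem_homogeneousSubmodule]
  exact isHomogeneous_monomial _ hs''

end FullBasic

theorem Full.congr {σ τ : Type*} [Fintype σ] [Fintype τ] (e : σ ≃ τ) {r : ℕ} (h : Full σ r) :
    Full τ r := by
  obtain ⟨B, hB⟩ := h
  refine ⟨fun i j => B i (e.symm j), fun f hf => ?_⟩
  have h1 : rename e.symm f ∈ homogeneousSubmodule σ ℂ 4 := by
    rw [mem_homogeneousSubmodule] at hf ⊢
    exact hf.rename_isHomogeneous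
  have h2 := hB h1
  have h3 : ∀ g ∈ W 4 B, rename e g ∈ W 4 (fun i j => B i (e.symm j)) := by
    intro g hg
    have : W 4 B ≤ (W 4 (fun i j => B i (e.symm j))).comap (rename e).toLinearMap := by
      refine iSup_le fun i => ?_
      rintro _ ⟨q, hq, rfl⟩
      rw [Submodule.mem_comap, LinearMap.mulLeft_apply, AlgHom.toLinearMap_apply, map_mul,
        map_pow, FullBasic.rename_lf]
      refine FullBasic.mem_W (fun i j => B i (e.symm j)) i ?_
      rw [SetLike.mem_coe, mem_homogeneousSubmodule] at hq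
      rw [mem_homogeneousSubmodule]
      exact hq.rename_isHomogeneous
    exact this hg
  have h4 := h3 _ h2
  rwa [rename_rename, e.self_comp_symm, rename_id_apply] at h4

theorem Full.mono {σ : Type*} [Fintype σ] {r r' : ℕ} (hr : r ≤ r') (h : Full σ r) :
    Full σ r' := by
  obtain ⟨B, hB⟩ := h
  refine ⟨fun i => if h : (i : ℕ) < r then B ⟨i, h⟩ else 0, hB.trans ?_⟩
  refine iSup_le fun i => ?_
  refine le_iSup_of_le (Fin.castLE hr i) ?_
  simp

theorem full_trivial (v : ℕ) : Full (Fin v) (v * (v + 1) / 2) := by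
  let B : Sym2 (Fin v) → Fin v → ℂ := Sym2.lift ⟨fun i j => Pi.single i 1 + Pi.single j 1,
    fun i j => add_comm _ _⟩
  have hcard : Fintype.card (Sym2 (Fin v)) = v * (v + 1) / 2 := by
    rw [Sym2.card, Fintype.card_fin, Nat.choose_two_right, Nat.add_sub_cancel, mul_comm]
  rw [← hcard]
  refine FullBasic.full_of_fintype B (FullBasic.homog_four_le fun i j q hq => ?_)
  have hlf : ∀ i : Fin v, lf (Pi.single i (1 : ℂ)) = (X i : MvPolynomial (Fin v) ℂ) := by
    intro i
    unfold lf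
    rw [Finset.sum_eq_single i]
    · simp
    · intro j _ hj
      simp [Pi.single_eq_of_ne hj]
    · intro h
      exact absurd (Finset.mem_univ i) h
  have hlfB : ∀ i j : Fin v, lf (B s(i, j)) = (X i + X j : MvPolynomial (Fin v) ℂ) := by
    intro i j
    have : B s(i, j) = Pi.single i 1 + Pi.single j 1 := rfl
    rw [this, ← hlf, ← hlf]
    simp only [lf, Pi.add_apply, add_smul, Finset.sum_add_distrib]
  have h1 : ∀ i j : Fin v, (X i + X j) ^ 2 * q ∈ W 4 B := by
    intro i j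
    have := FullBasic.mem_W (d := 4) B s(i, j) hq
    rwa [hlfB] at this
  have h2 : ∀ i : Fin v, X i ^ 2 * q ∈ W 4 B := by
    intro i
    have := Submodule.smul_mem (W 4 B) (1 / 4 : ℂ) (h1 i i)
    have e : (1 / 4 : ℂ) • ((X i + X i) ^ 2 * q) = X i ^ 2 * q := by
      have e2 : ((X i + X i) ^ 2 * q : MvPolynomial (Fin v) ℂ) = (4 : ℂ) • (X i ^ 2 * q) := by
        rw [smul_eq_C_mul, map_ofNat]
        ring
      rw [e2, smul_smul]
      norm_num
    rwa [e] at this
  have h3 : (1 / 2 : ℂ) • ((X i + X j) ^ 2 * q - X i ^ 2 * q - X j ^ 2 * q) = X i * X j * q := by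
    have e2 : ((X i + X j) ^ 2 * q - X i ^ 2 * q - X j ^ 2 * q : MvPolynomial (Fin v) ℂ) =
        (2 : ℂ) • (X i * X j * q) := by
      rw [smul_eq_C_mul, map_ofNat]
      ring
    rw [e2, smul_smul]
    norm_num
  rw [← h3]
  exact Submodule.smul_mem _ _ (Submodule.sub_mem _ (Submodule.sub_mem _ (h1 i j) (h2 i)) (h2 j))

/-- Good directions exist (points of the moment curve). -/
theorem exists_goodDir (K : ℕ) : ∃ nn : Fin (K + 1) → Fin 3 → ℂ, GoodDir nn := by
  refine ⟨fun c => if c = 0 then 0 else fun j => ((c : ℕ) : ℂ) ^ (j : ℕ), by simp, ?_⟩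
  intro a b c ha hb hc hab hac hbc
  simp only [if_neg ha, if_neg hb, if_neg hc]
  have hinj : Function.Injective (![((a : ℕ) : ℂ), ((b : ℕ) : ℂ), ((c : ℕ) : ℂ)]) := by
    intro i j hij
    have hab' : ((a : ℕ) : ℂ) ≠ ((b : ℕ) : ℂ) := by
      rw [Ne, Nat.cast_inj]
      exact fun h => hab (Fin.ext h)
    have hac' : ((a : ℕ) : ℂ) ≠ ((c : ℕ) : ℂ) := by
      rw [Ne, Nat.cast_inj]
      exact fun h => hac (Fin.ext h)
    have hbc' : ((b : ℕ) : ℂ) ≠ ((c : ℕ) : ℂ) := by
      rw [Ne, Nat.cast_inj]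
      exact fun h => hbc (Fin.ext h)
    fin_cases i <;> fin_cases j <;> simp_all
  have hdet := Matrix.det_vandermonde_ne_zero_iff.2 hinj
  have hu : IsUnit (Matrix.vandermonde ![((a : ℕ) : ℂ), ((b : ℕ) : ℂ), ((c : ℕ) : ℂ)]) :=
    (Matrix.isUnit_iff_isUnit_det _).2 (isUnit_iff_ne_zero.2 hdet)
  have hli := Matrix.linearIndependent_rows_iff_isUnit.2 hu
  have e : (![fun j : Fin 3 => ((a : ℕ) : ℂ) ^ (j : ℕ), fun j : Fin 3 => ((b : ℕ) : ℂ) ^ (j : ℕ),
      fun j : Fin 3 => ((c : ℕ) : ℂ) ^ (j : ℕ)] : Fin 3 → Fin 3 → ℂ) =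
      (Matrix.vandermonde ![((a : ℕ) : ℂ), ((b : ℕ) : ℂ), ((c : ℕ) : ℂ)]).row := by
    funext i j
    fin_cases i <;> simp [Matrix.vandermonde_apply, Matrix.row]
  rw [e]
  exact hli

end Pool.Agent.Helper93.TP
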